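import Pool.Agent.J4H20.TR.Stm

set_option autoImplicit false

/-! # Project TR2: (T3) the choice of `s` modulo `q` -/

namespace Pool.Agent.J4H17.TR

open Polynomial Pool.Agent.J4H20.TR

/-- the derivative of the product is positive to the right of the roots -/
theorem der_pos {k : ℕ} (a : Fin (k + 2) → ℤ) (x : ℤ) (hx : ∀ i, a i < x) :
    0 < (derivative (∏ i, (X - C (a i)))).eval x := by
  classical
  rw [Polynomial.derivative_prod_finset, Polynomial.eval_finset_sum]
  apply Finset.sum_pos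
  · intro i _
    rw [Polynomial.eval_mul, Polynomial.eval_prod]
    have h1 : (derivative (X - C (a i))).eval x = 1 := by simp
    rw [h1, mul_one]
    apply Finset.prod_pos
    intro j _
    simp only [eval_sub, eval_X, eval_C]
    have := hx j
    linarith
  · exact Finset.univ_nonempty

theorem t_T3 : S_T3 := by
  intro n k D
  classical
  refine ⟨∑ i, |D.a i|, fun x hx => ?_⟩
  have hxa : ∀ i, D.a i < x := by
    intro i
    have h1 : |D.a i| ≤ ∑ i, |D.a i| :=
      Finset.single_le_sum (f := fun i => |D.a i|) (fun i _ => abs_nonneg _) (Finset.mem_univ i)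
    have h2 := le_abs_self (D.a i)
    linarith
  have hF := der_pos D.a x hxa
  set F' : ℤ := (derivative (∏ i, (X - C (D.a i)))).eval x with hF'
  have hFe : F' = 2 * D.g.eval x * (derivative D.g).eval x + (derivative D.r).eval x := by
    rw [hF', D.hf]
    simp only [derivative_add, derivative_pow, eval_add, eval_mul, eval_pow]
    simp
  have hfe : ∏ j, (x - D.a j) = (D.g.eval x) ^ 2 + D.r.eval x := by
    have h1 := congrArg (fun p : ℤ[X] => p.eval x) D.hf
    simpa [eval_prod] using h1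
  refine ⟨2 + F'.natAbs, fun q hq hB hsq => ?_⟩
  have hqp : q.Prime := hq.out
  obtain ⟨y₀, hy⟩ := hsq
  set G : ZMod q := ((D.g.eval x : ℤ) : ZMod q) with hG
  set R : ZMod q := ((D.r.eval x : ℤ) : ZMod q) with hR
  set G' : ZMod q := (((derivative D.g).eval x : ℤ) : ZMod q) with hG'
  set R' : ZMod q := (((derivative D.r).eval x : ℤ) : ZMod q) with hR'
  have h1 : y₀ * y₀ = G ^ 2 + R := by
    rw [← hy, hG, hR]
    have h2 := congrArg (fun z : ℤ => (z : ZMod q)) hfe
    push_cast at h2 ⊢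
    exact h2
  have hFq : ((F' : ℤ) : ZMod q) = 2 * G * G' + R' := by
    rw [hFe, hG, hG', hR']
    push_cast
    ring
  have hF0 : ((F' : ℤ) : ZMod q) ≠ 0 := by
    intro h
    rw [ZMod.intCast_zmod_eq_zero_iff_dvd] at h
    have h3 := Int.le_of_dvd hF h
    have h4 : (F'.natAbs : ℤ) = F' := Int.natAbs_of_nonneg hF.le
    omega
  have h20 : (2 : ZMod q) ≠ 0 := by
    intro h
    have h5 : ((2 : ℕ) : ZMod q) = 0 := by exact_mod_cast h
    rw [ZMod.natCast_eq_zero_iff] at h5
    have := Nat.le_of_dvd (by norm_num) h5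
    omega
  obtain ⟨e, he1, he2⟩ : ∃ e : ZMod q, e * e = y₀ * y₀ ∧ 2 * e * G' - ((F' : ℤ) : ZMod q) ≠ 0 := by
    by_cases h : 2 * y₀ * G' = ((F' : ℤ) : ZMod q)
    · refine ⟨-y₀, by ring, ?_⟩
      have e1 : 2 * -y₀ * G' - ((F' : ℤ) : ZMod q) = -(2 * ((F' : ℤ) : ZMod q)) := by
        rw [← h]
        ring
      rw [e1]
      exact neg_ne_zero.2 (mul_ne_zero h20 hF0)
    · exact ⟨y₀, rfl, sub_ne_zero.2 h⟩
  refine ⟨e - G, fun c M hM hc => ?_⟩
  have hM0 : ((M : ℤ) : ZMod q) ≠ 0 := by
    intro h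
    exact hM ((ZMod.intCast_zmod_eq_zero_iff_dvd _ _).1 h)
  constructor
  · rw [← ZMod.intCast_zmod_eq_zero_iff_dvd]
    have e2 : (hh D.g D.r c M).eval x = 2 * c * M * D.g.eval x - M ^ 2 * D.r.eval x + c ^ 2 := by
      unfold hh
      simp only [eval_add, eval_sub, eval_mul, eval_C]
    rw [e2]
    push_cast
    rw [hc, ← hG, ← hR]
    linear_combination ((M : ZMod q)) ^ 2 * he1 + ((M : ZMod q)) ^ 2 * h1
  · rw [← ZMod.intCast_zmod_eq_zero_iff_dvd]
    have e2 : (derivative (hh D.g D.r c M)).eval x = 2 * c * M * (derivative D.g).eval x -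
        M ^ 2 * (derivative D.r).eval x := by
      unfold hh
      simp only [derivative_add, derivative_sub, derivative_C_mul, derivative_C, eval_add, eval_sub,
        eval_mul, eval_C, eval_zero, add_zero]
    rw [e2]
    push_cast
    rw [hc, ← hG', ← hR']
    have e3 : 2 * ((e - G) * (M : ZMod q)) * (M : ZMod q) * G' - (M : ZMod q) ^ 2 * R' =
        (M : ZMod q) ^ 2 * (2 * e * G' - ((F' : ℤ) : ZMod q)) := by
      rw [hFq]
      ring
    rw [e3]
    exact mul_ne_zero (pow_ne_zero _ hM0) he2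

end Pool.Agent.J4H17.TR
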