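import Pool.Agent.J4H20.TR.Stm

set_option autoImplicit false

/-! # Project TR2: (T4) CRT and an interval -/

namespace Pool.Agent.J4H17.TR

open Polynomial Pool.Agent.J4H20.TR

theorem t_T4 : S_T4 := by
  intro M₀ q₀ L s α β hM₀ hq₀ hq₀M hL hα hαβ
  classical
  set m : ℕ := 2 * M₀.natAbs with hm
  have hm2 : 2 ≤ m := by
    have := Int.natAbs_pos.2 hM₀
    omega
  have hmZ : (m : ℤ) = 2 * |M₀| := by
    rw [hm]
    push_cast
    rfl
  have hdm : ∀ q : ℕ, ¬ (q : ℤ) ∣ 2 * M₀ → ¬ q ∣ m := by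
    intro q hq h
    apply hq
    rw [← Int.natCast_dvd_natCast, hmZ] at h
    exact h.trans (mul_dvd_mul_left 2 ((abs_dvd M₀ M₀).2 dvd_rfl))
  set P : ℕ := ∏ q ∈ L, q with hP
  have hPpos : 0 < P := Finset.prod_pos fun q hq => (hL q hq).1.pos
  have hq₀m : ¬ q₀ ∣ m := hdm q₀ hq₀M
  have hq₀0 : 0 < q₀ := hq₀.pos
  have hcop : Nat.Coprime (q₀ * m) P := by
    apply Nat.Coprime.prod_right
    intro q hq
    obtain ⟨h1, h2, h3⟩ := hL q hq
    refine Nat.Coprime.mul_left ?_ ?_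
    · exact (Nat.coprime_primes hq₀ h1).2 (Ne.symm h3)
    · exact ((Nat.Prime.coprime_iff_not_dvd h1).2 (hdm q h2)).symm
  set N : ℕ := q₀ * m * P with hN
  have hNpos : 0 < N := by positivity
  have hNR : (0 : ℝ) < (N : ℝ) := by exact_mod_cast hNpos
  obtain ⟨l, hl⟩ : ∃ l : ℕ, (N : ℝ) < (β - α) * ((m : ℝ) ^ (l + 1)) := by
    have h1 : 0 < β - α := by linarith
    have h2 : (1 : ℝ) < m := by exact_mod_cast (by omega : 1 < m)
    obtain ⟨l, hl⟩ := pow_unbounded_of_one_lt ((N : ℝ) / (β - α)) h2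
    refine ⟨l, ?_⟩
    rw [div_lt_iff₀ h1] at hl
    have h3 : (m : ℝ) ^ l ≤ (m : ℝ) ^ (l + 1) := pow_le_pow_right₀ h2.le (by omega)
    calc (N : ℝ) < (m : ℝ) ^ l * (β - α) := hl
      _ ≤ (m : ℝ) ^ (l + 1) * (β - α) := mul_le_mul_of_nonneg_right h3 h1.le
      _ = _ := by ring
  set Mn : ℕ := q₀ * m ^ (l + 1) with hMn
  have hMnpos : 0 < Mn := by positivity
  have hMR : (0 : ℝ) < (Mn : ℝ) := by exact_mod_cast hMnpos
  have hlM : (N : ℝ) < (β - α) * (Mn : ℝ) := by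
    have h1 : ((m : ℝ) ^ (l + 1)) ≤ (Mn : ℝ) := by
      have : m ^ (l + 1) ≤ Mn := Nat.le_mul_of_pos_left _ hq₀0
      exact_mod_cast this
    exact hl.trans_le (mul_le_mul_of_nonneg_left h1 (by linarith))
  obtain ⟨k₁, hk₁⟩ := Nat.chineseRemainderOfFinset (fun q : ℕ => (s q * (Mn : ZMod q)).val) id L
    (fun q hq => (hL q hq).1.ne_zero) (by
      intro a ha b hb hab
      exact (Nat.coprime_primes (hL a ha).1 (hL b hb).1).2 hab)
  obtain ⟨k, hk1, hk2⟩ := Nat.chineseRemainder hcop 1 k₁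
  set t : ℤ := ⌊(α * (Mn : ℝ) - k) / (N : ℝ)⌋ + 1 with ht
  set c : ℤ := (k : ℤ) + (N : ℤ) * t with hc
  have hcR : (c : ℝ) = (k : ℝ) + (N : ℝ) * (t : ℝ) := by
    rw [hc]
    push_cast
    ring
  have ht1 : (α * (Mn : ℝ) - k) / (N : ℝ) < (t : ℝ) := by
    rw [ht]
    push_cast
    exact Int.lt_floor_add_one _
  have ht2 : (t : ℝ) ≤ (α * (Mn : ℝ) - k) / (N : ℝ) + 1 := by
    rw [ht]
    push_cast
    linarith [Int.floor_le ((α * (Mn : ℝ) - k) / (N : ℝ))]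
  have hc1 : α * (Mn : ℝ) < (c : ℝ) := by
    rw [div_lt_iff₀ hNR] at ht1
    rw [hcR]
    linarith
  have hc2 : (c : ℝ) < β * (Mn : ℝ) := by
    have h1 : (N : ℝ) * (t : ℝ) ≤ (N : ℝ) * ((α * (Mn : ℝ) - k) / (N : ℝ) + 1) :=
      mul_le_mul_of_nonneg_left ht2 hNR.le
    have h2 : (N : ℝ) * ((α * (Mn : ℝ) - k) / (N : ℝ) + 1) = α * (Mn : ℝ) - k + N := by
      field_simp
    rw [hcR]
    linarith
  have hc0 : 0 < c := by
    have h1 : (0 : ℝ) < (c : ℝ) := lt_trans (by positivity) hc1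
    exact_mod_cast h1
  have hdvd : ((q₀ * m : ℕ) : ℤ) ∣ c - 1 := by
    have h1 : ((q₀ * m : ℕ) : ℤ) ∣ (k : ℤ) - 1 := by
      have := Nat.modEq_iff_dvd.1 hk1.symm
      simpa using this
    have h2 : ((q₀ * m : ℕ) : ℤ) ∣ (N : ℤ) * t := by
      apply Dvd.dvd.mul_right
      exact_mod_cast (Dvd.intro P rfl : q₀ * m ∣ N)
    have h3 : c - 1 = ((k : ℤ) - 1) + (N : ℤ) * t := by
      rw [hc]
      ring
    rw [h3]
    exact dvd_add h1 h2
  have hco : IsCoprime c ((q₀ * m : ℕ) : ℤ) := by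
    obtain ⟨u, hu⟩ := hdvd
    refine ⟨1, -u, ?_⟩
    linear_combination hu
  have hco1 : IsCoprime c (q₀ : ℤ) := by
    have h := hco
    push_cast at h
    exact h.of_mul_right_left
  have hco2 : IsCoprime c (m : ℤ) := by
    have h := hco
    push_cast at h
    exact h.of_mul_right_right
  have hMZ : ((Mn : ℕ) : ℤ) = (q₀ : ℤ) * (m : ℤ) ^ (l + 1) := by
    rw [hMn]
    push_cast
    ring
  have hq₀p : Prime (q₀ : ℤ) := Nat.prime_iff_prime_int.1 hq₀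
  refine ⟨c, (Mn : ℤ), hc0, by exact_mod_cast hMnpos, ?_, ?_, ?_, ?_, ?_, ?_, ?_, ?_⟩
  · rw [hMZ]
    exact hco1.mul_right hco2.pow_right
  · rw [hMZ, hmZ]
    apply Dvd.dvd.mul_left
    refine (?_ : M₀ ∣ 2 * |M₀|).trans (dvd_pow_self _ (by omega))
    exact Dvd.dvd.mul_left ((dvd_abs M₀ M₀).2 dvd_rfl) 2
  · rw [hMZ]
    exact dvd_mul_right _ _
  · intro h
    have h1 : q₀ ^ 2 ∣ Mn := by exact_mod_cast h
    rw [hMn, pow_two] at h1
    have h2 := Nat.dvd_of_mul_dvd_mul_left hq₀0 h1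
    exact hq₀m (hq₀.dvd_of_dvd_pow h2)
  · intro h
    rcases hq₀p.dvd_or_dvd h with h1 | h1
    · exact hq₀M (h1.mul_right _)
    · obtain ⟨u, v, huv⟩ := hco1
      apply hq₀p.not_unit
      apply isUnit_of_dvd_one
      rw [← huv]
      exact dvd_add (h1.mul_left _) (dvd_mul_left _ _)
  · exact_mod_cast hc1
  · exact_mod_cast hc2
  · intro q hq
    obtain ⟨g1, g2, g3⟩ := hL q hq
    constructor
    · intro h
      have h1 : q ∣ Mn := by exact_mod_cast h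
      rw [hMn] at h1
      rcases (Nat.Prime.dvd_mul g1).1 h1 with h2 | h2
      · exact g3 ((Nat.prime_dvd_prime_iff_eq g1 hq₀).1 h2)
      · exact hdm q g2 (g1.dvd_of_dvd_pow h2)
    · haveI : NeZero q := ⟨g1.ne_zero⟩
      have hqP : q ∣ P := Finset.dvd_prod_of_mem _ hq
      have h1 : k ≡ (s q * (Mn : ZMod q)).val [MOD q] := (hk2.of_dvd hqP).trans (hk₁ q hq)
      have h2 : ((k : ℕ) : ZMod q) = s q * (Mn : ZMod q) := by
        rw [(ZMod.natCast_eq_natCast_iff _ _ _).2 h1, ZMod.natCast_zmod_val]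
      have h3 : ((N : ℕ) : ZMod q) = 0 := by
        rw [ZMod.natCast_eq_zero_iff]
        exact hqP.mul_left _
      rw [hc]
      push_cast
      rw [h2, h3, zero_mul, add_zero]

end Pool.Agent.J4H17.TR
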